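import Pool.Agent.R459.Tor10
import Pool.Agent.R345.HM1

/-! # The `H`-moments of the class groups of the fields `ℚ(√(j v))`, where `v` runs through sparse families given by digits

The families have as few as `N ^ c` of the integers up to `N = b ^ k`, with any `c > 0`: the rearrangements of `k` digits, the
palindromes, the integers with independent pairs of mirror digits (in particular all integers whose `i`-th digit lies in an
arbitrary set `D i` with at least two digits, for all `i`). Let `p` be a prime and `H` a finite abelian `p`-group with `r`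
cyclic factors and exponent dividing `ℓ = p ^ m`. The mean value over such a family of the number of the surjective
homomorphisms from the `p`-part of the class group of `K_v = ℚ(√(j v))` onto `H` has the full `r`-fold power saving
`max (Y ^ (-1 / (2 ℓ)), b ^ (- δ k)) ^ r` over the trivial bound `Y ^ (r / 2)` if the discriminants are at most `Y`; here `δ > 0`
depends only on `r` and on the type of the families, and the bound is uniform in `p`, `H`, `j` and the shift `c`.

Definitions used: in `Pool.Agent.R459.Eq` (file `Pool/Agent/R459/Mn.lean`): `Mean b k κ c η M f`: the mean value of `f (c + κ v)` over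
each of the three families is at most `M`. -/

set_option autoImplicit false

namespace Pool.Agent.Results.MP_0f260b_nt.DigitMoments

open Polynomial NumberField Pool.Agent.R459.Eq Pool.Agent.R459.Tor

/-- `#Sur(Cl(K)[p^∞], H)` for the group `H`, the product of the cyclic groups of orders `p ^ e i`. -/
noncomputable def numSur (K : Type) [Field K] [NumberField K] (p : ℕ) {r : ℕ} (e : Fin r → ℕ) : ℕ :=
  Nat.card {φ : CommGroup.primaryComponent (ClassGroup (𝓞 K)) p →* (∀ i : Fin r, Multiplicative (ZMod (p ^ e i))) //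
    Function.Surjective φ}

lemma numSur_le (K : Type) [Field K] [NumberField K] (p : ℕ) (hp : p.Prime) {r : ℕ} (e : Fin r → ℕ) (m : ℕ)
    (he : ∀ i, e i ≤ m) :
    (numSur K p e : ℝ) ≤ (Nat.card {x : ClassGroup (𝓞 K) // x ^ (p ^ m) = 1} : ℝ) ^ r := by
  have := Pool.Agent.R345.HM.card_sur_le (ClassGroup (𝓞 K)) p hp m r e he
  exact_mod_cast this

open Classical in
lemma mean_le {b k : ℕ} {κ c : ℤ} {η M : ℝ} {f g : ℤ → ℝ} (h : Mean b k κ c η M g) (hfg : ∀ v, f v ≤ g v) :
    Mean b k κ c η M f := by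
  refine ⟨fun d hd => (Finset.sum_le_sum fun σ _ => hfg _).trans (h.1 d hd),
    (Finset.sum_le_sum fun v _ => hfg _).trans h.2.1, fun w u hw hu hu1 => ?_⟩
  refine (Finset.sum_le_sum fun d _ => Finset.sum_le_sum fun z _ => ?_).trans (h.2.2 w u hw hu hu1)
  exact mul_le_mul_of_nonneg_right (hfg _) (mul_nonneg (Finset.prod_nonneg fun i _ => hw.nonneg i i.2 _) (hu z))

open Classical in
/-- **The `H`-moments of the class groups over sparse families given by digits.** Let `b ≥ 2`, `η > 0` and `r ≥ 1`. There is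
`δ > 0` such that for `κ ≠ 0` and `T`, `V` there are `B`, `k₀` such that the following holds for all `k ≥ k₀`, all `c`, all integers
`j ≠ 0` with `|j| ≤ k ^ T`, all primes `p`, all `m` with `p ^ m ≤ k ^ T`, all groups `H` which are products of `r` cyclic groups of
orders `p ^ e i` with `e i ≤ m`, and all `Y ≥ 1`.

Let `K_v = ℚ(√(j v))` be quadratic fields with discriminant of absolute value at most `Y`, for the integers `v` in a set `S` of
integers of absolute value at most `b ^ (V k)`. Then the mean value, over the members `v = c + κ u` of each of the families of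
integers with `k` digits described by `Mean` (the rearrangements of `k` digits, the palindromes, the integers with
independent pairs of mirror digits), of the number of the surjective homomorphisms from the `p`-part of the class group of
`K_v` onto `H` (with `0` if `v` is not in `S`) is at most `(k ^ B Y ^ (1 / 2) max (Y ^ (-1 / (2 p ^ m)), b ^ (- δ k))) ^ r`. -/
theorem result (b : ℕ) (hb : 2 ≤ b) (η : ℝ) (hη : 0 < η) (r : ℕ) (hr : 1 ≤ r) : ∃ δ : ℝ, 0 < δ ∧
    ∀ κ : ℤ, κ ≠ 0 → ∀ T V : ℕ, ∃ B k₀ : ℕ, ∀ k : ℕ, k₀ ≤ k → ∀ c j : ℤ, j ≠ 0 → |j| ≤ (k : ℤ) ^ T →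
    ∀ (p m : ℕ) (e : Fin r → ℕ), p.Prime → p ^ m ≤ k ^ T → (∀ i, e i ≤ m) → ∀ Y : ℝ, 1 ≤ Y →
    ∀ (S : Set ℤ) (K : ℤ → Type) [∀ v, Field (K v)] [∀ v, NumberField (K v)],
    (∀ v ∈ S, |v| ≤ (b : ℤ) ^ (V * k) ∧ Module.finrank ℚ (K v) = 2 ∧ |(discr (K v) : ℝ)| ≤ Y ∧
      ∃ α : K v, IntermediateField.adjoin ℚ {α} = ⊤ ∧ α ^ 2 = ((j * v : ℤ) : K v)) →
    Mean b k κ c η (((k : ℝ) ^ B * (√Y * max (Y ^ (-(1 / (2 * (p : ℝ) ^ m)))) ((b : ℝ) ^ (-(δ * k))))) ^ r)
      (fun v => if v ∈ S then (numSur (K v) p e : ℝ) else 0) := by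
  obtain ⟨W, hW, H⟩ := torsion_mom b hb η hη r hr
  have hWr : (0 : ℝ) < W := by exact_mod_cast hW
  refine ⟨1 / W, by positivity, fun κ hκ T V => ?_⟩
  obtain ⟨B, k₀, J⟩ := H κ hκ 2 le_rfl T V
  refine ⟨B, k₀ + 1, fun k hk c j hj0 hj p m e hp hℓT he Y hY S K _ _ hS => ?_⟩
  obtain ⟨ℓ, hℓ⟩ : ∃ ℓ, ℓ = p ^ m := ⟨_, rfl⟩
  have hℓr : (p : ℝ) ^ m = (ℓ : ℝ) := by rw [hℓ]; push_cast; rfl
  have hℓ1 : 1 ≤ ℓ := by rw [hℓ]; exact Nat.one_le_pow _ _ hp.pos
  rw [← hℓ] at hℓT
  rw [hℓr]
  have h1 := J k (by omega) c (X ^ 2) ⟨monic_X_pow 2, natDegree_X_pow 2, fun i => by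
    have hk1 : (1 : ℤ) ≤ (k : ℤ) ^ T := one_le_pow₀ (by exact_mod_cast (by omega : 1 ≤ k))
    rw [coeff_X_pow]
    split_ifs
    · simp [hk1]
    · simp⟩ j hj0 hj ℓ hℓ1 hℓT Y hY S K (by
    intro v hv
    obtain ⟨h1, h2, h3, α, h4, h5⟩ := hS v hv
    refine ⟨h1, h2, h3, α, h4, ?_⟩
    rw [map_pow, aeval_X]
    exact h5)
  have e1 : ((2 * (2 - 1) * ℓ : ℕ) : ℝ) = 2 * ℓ := by push_cast; ring
  have e2 : (k : ℝ) / W = 1 / W * k := by ring
  rw [e1, e2] at h1
  refine mean_le h1 ?_
  intro v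
  by_cases hv : v ∈ S
  · rw [if_pos hv, if_pos hv, hℓ]
    exact numSur_le (K v) p hp e m he
  · rw [if_neg hv, if_neg hv]

end Pool.Agent.Results.MP_0f260b_nt.DigitMoments
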