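import Pool.Agent.R418.UP.F
import Pool.Agent.R345.HM1

set_option autoImplicit false

/-!
# The `p`-parts of the class groups of the fields `ℚ(√f(j))`, uniformly in the polynomial

Let `f` be ANY polynomial with integer coefficients, of degree between `1` and `D`, without multiple
roots, whose coefficients have absolute values at most `T₀ ^ B`.  Let the number `N` of values be at
least a power of the logarithm: `(log T₀) ^ C ≤ N ≤ T₀`.  Let `H` be a finite abelian `p`-group,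
written as the product of `r` cyclic groups of orders `p ^ (e i)`, `e i ≤ m`, and `ℓ = p ^ m`.

(1) For all but `K N ^ (2 / 3 + δ)` of the values `f(j)`, `j < N`, which are not squares, every (real
or imaginary) quadratic field `k` with a square root of `f(j)` satisfies, for ALL primes `p` and ALL
groups `H` simultaneously: the number of the surjective homomorphisms from the `p`-part of the class
group of `k` onto `H` is at most `(|disc k| ^ (1 / 2 - 1 / (2 ℓ)) T₀ ^ ε) ^ r`.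

(2) For the moments: if the discriminants of the fields `K j`, `j ∈ S`, are at most `Y` in absolute
value, then the sum over `j ∈ S` of the number of these surjective homomorphisms is at most
`K N (K √Y T₀ ^ ε) ^ r max (Y ^ (- r / (2 ℓ)), N ^ (- 1 / 3 + δ))`.

The constants `C`, `K` depend only on `ε`, `δ`, `B`, `D`, and not on `f`, `T₀`, `N`, `p`, `H`, `Y`.
-/

namespace Pool.Agent.Results.MP_0f260b_nt.PolynomialMoments

open Polynomial NumberField

/-- the polynomials of degree between `1` and `D` without multiple roots (separable over `ℚ`) whose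
coefficients have absolute values at most `M` -/
def Fam (D : ℕ) (M : ℝ) : Set ℤ[X] := {f | 1 ≤ f.natDegree ∧ f.natDegree ≤ D ∧
  (f.map (Int.castRingHom ℚ)).Separable ∧ ∀ i, |((f.coeff i : ℤ) : ℝ)| ≤ M}

/-- `#Sur(Cl(K)[p^∞], H)` for the group `H`, the product of the cyclic groups of orders `p ^ e i`. -/
noncomputable def numSur (K : Type) [Field K] [NumberField K] (p : ℕ) {r : ℕ} (e : Fin r → ℕ) : ℕ :=
  Nat.card {φ : CommGroup.primaryComponent (ClassGroup (𝓞 K)) p →*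
    (∀ i : Fin r, Multiplicative (ZMod (p ^ e i))) // Function.Surjective φ}

/-- `a` is not a square, and for some prime `p` and some product `H` of `r` cyclic groups of orders
`p ^ e i`, `e i ≤ m`, the quadratic field `K` of the square root of `a` has
`#Sur(Cl(K)[p^∞], H) > (|disc K| ^ (1 / 2 - 1 / (2 p ^ m)) T ^ ε) ^ r` -/
def Bad (ε T : ℝ) (a : ℤ) : Prop := ¬ IsSquare a ∧ ∃ (K : Type) (_ : Field K) (_ : NumberField K)
  (p m r : ℕ) (e : Fin r → ℕ), Module.finrank ℚ K = 2 ∧ (∃ x : K, x ^ 2 = (a : K)) ∧ p.Prime ∧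
    (∀ i, e i ≤ m) ∧
    (|(discr K : ℝ)| ^ (1 / 2 - 1 / (2 * (p : ℝ) ^ m)) * T ^ ε) ^ r < (numSur K p e : ℝ)

lemma numSur_le (K : Type) [Field K] [NumberField K] (p : ℕ) (hp : p.Prime) {r : ℕ}
    (e : Fin r → ℕ) (m : ℕ) (he : ∀ i, e i ≤ m) :
    (numSur K p e : ℝ) ≤ (Nat.card {x : ClassGroup (𝓞 K) // x ^ (p ^ m) = 1} : ℝ) ^ r := by
  have := Pool.Agent.R345.HM.card_sur_le (ClassGroup (𝓞 K)) p hp m r e he
  exact_mod_cast this

/-- a bad value is bad for the torsion -/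
lemma bad_badT {ε T : ℝ} {a : ℤ} (h : Bad ε T a) : Pool.Agent.R418.UP.BadT ε T a := by
  obtain ⟨hns, K, i1, i2, p, m, r, e, h2, hx, hp, he, hlt⟩ := h
  refine ⟨hns, K, i1, i2, p ^ m, h2, hx, Nat.one_le_pow _ _ hp.pos, ?_⟩
  by_contra hcon
  push Not at hcon
  have h1 := numSur_le K p hp e m he
  have h3 : (Nat.card {x : ClassGroup (𝓞 K) // x ^ (p ^ m) = 1} : ℝ) ^ r ≤
      (|(discr K : ℝ)| ^ (1 / 2 - 1 / (2 * (p : ℝ) ^ m)) * T ^ ε) ^ r := by
    refine pow_le_pow_left₀ (Nat.cast_nonneg _) ?_ r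
    push_cast at hcon
    exact hcon
  linarith

theorem result (ε δ : ℝ) (B D : ℕ) (hε : 0 < ε) (hδ : 0 < δ) (hD : 1 ≤ D) :
    ∃ C K : ℝ, 0 < C ∧ 0 < K ∧ ∀ T₀ N : ℕ, ∀ f ∈ Fam D ((T₀ : ℝ) ^ B),
      Real.log T₀ ^ C ≤ N → N ≤ T₀ →
        (({j : ℕ | j < N ∧ Bad ε T₀ (f.eval (j : ℤ))}).ncard : ℝ) ≤ K * (N : ℝ) ^ (2 / 3 + δ) ∧
        ∀ (p m r : ℕ) (e : Fin r → ℕ), p.Prime → (∀ i, e i ≤ m) →
          ∀ (Y : ℝ) (S : Finset ℕ) (k : ℕ → Type) [∀ j, Field (k j)] [∀ j, NumberField (k j)],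
            (∀ j ∈ S, j < N ∧ ¬ IsSquare (f.eval (j : ℤ)) ∧ Module.finrank ℚ (k j) = 2 ∧
              (∃ x : k j, x ^ 2 = ((f.eval (j : ℤ) : ℤ) : k j)) ∧ |(discr (k j) : ℝ)| ≤ Y) →
            ∑ j ∈ S, (numSur (k j) p e : ℝ) ≤ K * N * (K * √Y * (T₀ : ℝ) ^ ε) ^ r *
              max (Y ^ (-((r : ℝ) / (2 * (p : ℝ) ^ m)))) ((N : ℝ) ^ (-(1 / 3) + δ)) := by
  classical
  obtain ⟨C, K₁, hC, hK₁, h⟩ := Pool.Agent.R418.UP.mainT (ε / 2) δ B D (by positivity) hδ hD
  obtain ⟨C₁, hC₁, htor⟩ := Pool.Agent.R418.UP.tor_choose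
  obtain ⟨c₁, hc₁⟩ : ∃ c₁ : ℝ, c₁ = Real.log (4 * (D + 1)) + (B + D) / ε := ⟨_, rfl⟩
  have hDr : (1 : ℝ) ≤ D := by exact_mod_cast hD
  have hc₁0 : 0 ≤ c₁ := by
    rw [hc₁]
    have h1 : 0 ≤ Real.log (4 * ((D : ℝ) + 1)) := Real.log_nonneg (by linarith)
    positivity
  obtain ⟨K, hK⟩ : ∃ K : ℝ, K = 1 + K₁ + C₁ * c₁ := ⟨_, rfl⟩
  have hCc : 0 ≤ C₁ * c₁ := mul_nonneg hC₁.le hc₁0
  have hK1 : 1 ≤ K := by rw [hK]; linarith
  have hKK₁ : 1 + K₁ ≤ K := by rw [hK]; linarith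
  have hKC : C₁ * c₁ ≤ K := by rw [hK]; linarith
  refine ⟨C, K, hC, by linarith, fun T₀ N f hf h1 h3 => ?_⟩
  obtain ⟨hf1, hf2, hf3, hf4⟩ := hf
  refine ⟨?_, ?_⟩
  · have hfin : ({j : ℕ | j < N ∧ Bad ε T₀ (f.eval (j : ℤ))} : Set ℕ).Finite :=
      (Set.finite_Iio N).subset fun j hj => hj.1
    rcases Nat.eq_zero_or_pos N with hN0 | hN
    · have he : ({j : ℕ | j < N ∧ Bad ε T₀ (f.eval (j : ℤ))} : Set ℕ) = ∅ := by
        ext j
        simp [hN0]
      rw [he, Set.ncard_empty, Nat.cast_zero]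
      positivity
    rw [Set.ncard_eq_toFinset_card _ hfin]
    have hT1 : (1 : ℝ) ≤ T₀ := by exact_mod_cast le_trans hN h3
    refine (h T₀ N f hf1 hf2 hf3 hf4 h1 h3 _ fun j hj => ?_).trans ?_
    · obtain ⟨g1, g2⟩ := (Set.Finite.mem_toFinset hfin).1 hj
      refine ⟨g1, bad_badT ?_⟩
      obtain ⟨hns, k, i1, i2, p, m, r, e, h2, hx, hp, he, hlt⟩ := g2
      refine ⟨hns, k, i1, i2, p, m, r, e, h2, hx, hp, he, lt_of_le_of_lt ?_ hlt⟩
      refine pow_le_pow_left₀ (by positivity) ?_ r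
      refine mul_le_mul_of_nonneg_left ?_ (by positivity)
      exact Real.rpow_le_rpow_of_exponent_le hT1 (by linarith)
    · exact mul_le_mul_of_nonneg_right (by linarith) (by positivity)
  · intro p m r e hp he Y S k _ _ hS
    rcases Nat.eq_zero_or_pos N with hN0 | hN
    · have hSe : S = ∅ := by
        rw [Finset.eq_empty_iff_forall_notMem]
        intro j hj
        have := (hS j hj).1
        omega
      rw [hSe, Finset.sum_empty, hN0]
      simp
    by_cases hSn : S = ∅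
    · rw [hSn, Finset.sum_empty]
      have : 0 ≤ √Y := Real.sqrt_nonneg _
      positivity
    obtain ⟨j₀, hj₀⟩ := Finset.nonempty_of_ne_empty hSn
    have hY2 : 2 < Y := by
      have h4 := NumberField.abs_discr_gt_two (K := k j₀) (by rw [(hS j₀ hj₀).2.2.1]; norm_num)
      have h5 : (2 : ℝ) < |(discr (k j₀) : ℝ)| := by exact_mod_cast h4
      exact h5.trans_le (hS j₀ hj₀).2.2.2.2
    have hY0 : 0 < Y := by linarith
    have hN1 : (1 : ℝ) ≤ N := by exact_mod_cast hN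
    have hN0' : (0 : ℝ) < N := by linarith
    have hT1 : (1 : ℝ) ≤ T₀ := by exact_mod_cast le_trans hN h3
    have hT0 : (0 : ℝ) < T₀ := by linarith
    have hTε : 1 ≤ (T₀ : ℝ) ^ ε := Real.one_le_rpow hT1 hε.le
    -- the two sets
    set G : Finset ℕ := S.filter fun j => Pool.Agent.R418.UP.BadT (ε / 2) T₀ (f.eval (j : ℤ)) with hG
    have hGc : (G.card : ℝ) ≤ K₁ * (N : ℝ) ^ (2 / 3 + δ) :=
      h T₀ N f hf1 hf2 hf3 hf4 h1 h3 G fun j hj => by
        rw [hG, Finset.mem_filter] at hj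
        exact ⟨(hS j hj.1).1, hj.2⟩
    obtain ⟨ℓ, hℓ⟩ : ∃ ℓ : ℝ, ℓ = (p : ℝ) ^ m := ⟨_, rfl⟩
    have hℓ1 : 1 ≤ ℓ := by
      rw [hℓ]
      exact one_le_pow₀ (by exact_mod_cast hp.one_le)
    have hθ : 0 ≤ 1 / 2 - 1 / (2 * ℓ) := by
      have : 1 / (2 * ℓ) ≤ 1 / 2 := one_div_le_one_div_of_le (by norm_num) (by linarith)
      linarith
    obtain ⟨U, hU⟩ : ∃ U : ℝ, U = K * √Y * (T₀ : ℝ) ^ ε := ⟨_, rfl⟩
    have hU0 : 0 ≤ U := by
      rw [hU]
      have := Real.sqrt_nonneg Y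
      positivity
    obtain ⟨M, hM⟩ : ∃ M : ℝ, M = max (Y ^ (-((r : ℝ) / (2 * ℓ)))) ((N : ℝ) ^ (-(1 / 3) + δ)) :=
      ⟨_, rfl⟩
    have hM1 : Y ^ (-((r : ℝ) / (2 * ℓ))) ≤ M := by rw [hM]; exact le_max_left _ _
    have hM2 : (N : ℝ) ^ (-(1 / 3) + δ) ≤ M := by rw [hM]; exact le_max_right _ _
    have hM0 : 0 ≤ M := le_trans (by positivity) hM1
    -- the values outside the exceptional set
    have hgood : ∀ j ∈ S, j ∉ G → (numSur (k j) p e : ℝ) ≤ U ^ r * M := by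
      intro j hj hjG
      obtain ⟨a1, a2, a3, a4, a5⟩ := hS j hj
      have hnb : ¬ Pool.Agent.R418.UP.BadT (ε / 2) T₀ (f.eval (j : ℤ)) := by
        intro hb
        exact hjG (by rw [hG, Finset.mem_filter]; exact ⟨hj, hb⟩)
      have ht : (Nat.card {x : ClassGroup (𝓞 (k j)) // x ^ (p ^ m) = 1} : ℝ) ≤
          |(discr (k j) : ℝ)| ^ (1 / 2 - 1 / (2 * ℓ)) * (T₀ : ℝ) ^ (ε / 2) := by
        by_contra hcon
        push Not at hcon
        refine hnb ⟨a2, k j, inferInstance, inferInstance, p ^ m, a3, a4,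
          Nat.one_le_pow _ _ hp.pos, ?_⟩
        push_cast
        rw [← hℓ]
        exact hcon
      have ht2 : (Nat.card {x : ClassGroup (𝓞 (k j)) // x ^ (p ^ m) = 1} : ℝ) ≤
          U * Y ^ (-(1 / (2 * ℓ))) := by
        refine ht.trans ?_
        have b1 : |(discr (k j) : ℝ)| ^ (1 / 2 - 1 / (2 * ℓ)) ≤ Y ^ (1 / 2 - 1 / (2 * ℓ)) :=
          Real.rpow_le_rpow (abs_nonneg _) a5 hθ
        have b2 : Y ^ (1 / 2 - 1 / (2 * ℓ)) = √Y * Y ^ (-(1 / (2 * ℓ))) := by
          rw [Real.sqrt_eq_rpow, ← Real.rpow_add hY0]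
          congr 1
        have b3 : (T₀ : ℝ) ^ (ε / 2) ≤ (T₀ : ℝ) ^ ε :=
          Real.rpow_le_rpow_of_exponent_le hT1 (by linarith)
        have b4 : 0 ≤ √Y * Y ^ (-(1 / (2 * ℓ))) := by positivity
        calc |(discr (k j) : ℝ)| ^ (1 / 2 - 1 / (2 * ℓ)) * (T₀ : ℝ) ^ (ε / 2)
            ≤ (√Y * Y ^ (-(1 / (2 * ℓ)))) * (T₀ : ℝ) ^ ε := by
              rw [← b2]
              exact mul_le_mul b1 b3 (by positivity) (by positivity)
          _ ≤ K * ((√Y * Y ^ (-(1 / (2 * ℓ)))) * (T₀ : ℝ) ^ ε) :=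
              le_mul_of_one_le_left (by positivity) hK1
          _ = U * Y ^ (-(1 / (2 * ℓ))) := by rw [hU]; ring
      refine (numSur_le (k j) p hp e m he).trans ?_
      refine (pow_le_pow_left₀ (Nat.cast_nonneg _) ht2 r).trans ?_
      rw [mul_pow]
      refine mul_le_mul_of_nonneg_left ?_ (pow_nonneg hU0 r)
      have b5 : (Y ^ (-(1 / (2 * ℓ)))) ^ r = Y ^ (-((r : ℝ) / (2 * ℓ))) := by
        rw [← Real.rpow_natCast, ← Real.rpow_mul hY0.le]
        congr 1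
        ring
      rw [b5]
      exact hM1
    -- the trivial bound
    have hall : ∀ j ∈ S, (numSur (k j) p e : ℝ) ≤ U ^ r := by
      intro j hj
      obtain ⟨a1, a2, a3, ⟨x, a4⟩, a5⟩ := hS j hj
      refine (numSur_le (k j) p hp e m he).trans (pow_le_pow_left₀ (Nat.cast_nonneg _) ?_ r)
      have t1 : (Nat.card {x : ClassGroup (𝓞 (k j)) // x ^ (p ^ m) = 1} : ℝ) ≤
          C₁ * √|(discr (k j) : ℝ)| * Real.log |(discr (k j) : ℝ)| :=
        (htor (k j) a3 (p ^ m) (Nat.one_le_pow _ _ hp.pos)).1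
      have t2 := (Pool.Agent.R418.UP.disc_rel2 (k j) a3 (f.eval (j : ℤ)) a2 x a4).2
      have t3 := Pool.Agent.R418.UP.eval_le f D hf2 ((T₀ : ℝ) ^ B) T₀ (one_le_pow₀ hT1) hT1 hf4 j (by
        exact_mod_cast (a1.le.trans h3))
      have t4 : |(discr (k j) : ℝ)| ≤ 4 * (D + 1) * (T₀ : ℝ) ^ (B + D) := by
        refine t2.trans ?_
        rw [pow_add]
        linarith
      have hdpos : 0 < |(discr (k j) : ℝ)| := abs_pos.mpr (by exact_mod_cast discr_ne_zero (k j))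
      have t5 : Real.log |(discr (k j) : ℝ)| ≤ c₁ * (T₀ : ℝ) ^ ε := by
        refine (Real.log_le_log hdpos t4).trans ?_
        rw [Real.log_mul (by positivity) (by positivity), Real.log_pow, hc₁]
        have u1 : Real.log T₀ ≤ (T₀ : ℝ) ^ ε / ε := Real.log_le_rpow_div hT0.le hε
        have u2 : 0 ≤ Real.log (4 * ((D : ℝ) + 1)) := Real.log_nonneg (by linarith)
        have u3 : Real.log (4 * ((D : ℝ) + 1)) ≤ Real.log (4 * ((D : ℝ) + 1)) * (T₀ : ℝ) ^ ε :=
          le_mul_of_one_le_right u2 hTε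
        have u4 : ((B + D : ℕ) : ℝ) * Real.log T₀ ≤ ((B : ℝ) + D) / ε * (T₀ : ℝ) ^ ε := by
          push_cast
          have := mul_le_mul_of_nonneg_left u1 (by positivity : (0 : ℝ) ≤ (B : ℝ) + D)
          calc ((B : ℝ) + D) * Real.log T₀ ≤ ((B : ℝ) + D) * ((T₀ : ℝ) ^ ε / ε) := this
            _ = ((B : ℝ) + D) / ε * (T₀ : ℝ) ^ ε := by ring
        rw [add_mul]
        linarith
      refine t1.trans ?_
      have t6 : √|(discr (k j) : ℝ)| ≤ √Y := Real.sqrt_le_sqrt a5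
      calc C₁ * √|(discr (k j) : ℝ)| * Real.log |(discr (k j) : ℝ)|
          ≤ C₁ * √|(discr (k j) : ℝ)| * (c₁ * (T₀ : ℝ) ^ ε) :=
            mul_le_mul_of_nonneg_left t5 (by positivity)
        _ ≤ C₁ * √Y * (c₁ * (T₀ : ℝ) ^ ε) :=
            mul_le_mul_of_nonneg_right (mul_le_mul_of_nonneg_left t6 hC₁.le) (by positivity)
        _ = (C₁ * c₁) * (√Y * (T₀ : ℝ) ^ ε) := by ring
        _ ≤ K * (√Y * (T₀ : ℝ) ^ ε) := mul_le_mul_of_nonneg_right hKC (by positivity)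
        _ = U := by rw [hU]; ring
    -- the sum
    rw [← hℓ, ← hU, ← hM]
    have hsum : ∑ j ∈ S, (numSur (k j) p e : ℝ) ≤
        ∑ j ∈ S, (U ^ r * M + if j ∈ G then U ^ r else 0) := by
      refine Finset.sum_le_sum fun j hj => ?_
      by_cases hjG : j ∈ G
      · rw [if_pos hjG]
        have := hall j hj
        have h6 : 0 ≤ U ^ r * M := by positivity
        linarith
      · rw [if_neg hjG, add_zero]
        exact hgood j hj hjG
    refine hsum.trans ?_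
    rw [Finset.sum_add_distrib, Finset.sum_const, nsmul_eq_mul, ← Finset.sum_filter,
      Finset.sum_const, nsmul_eq_mul]
    have hSN : (S.card : ℝ) ≤ N := by
      have h6 : S ⊆ Finset.range N := fun j hj => Finset.mem_range.2 (hS j hj).1
      have h7 := Finset.card_le_card h6
      rw [Finset.card_range] at h7
      exact_mod_cast h7
    have hGf : ((S.filter (fun j => j ∈ G)).card : ℝ) ≤ G.card := by
      exact_mod_cast Finset.card_le_card (fun j hj => (Finset.mem_filter.1 hj).2)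
    have hNe : (N : ℝ) ^ (2 / 3 + δ) = N * (N : ℝ) ^ (-(1 / 3) + δ) := by
      rw [← Real.rpow_one_add' hN0'.le (by
        have : (1 : ℝ) + (-(1 / 3) + δ) = 2 / 3 + δ := by ring
        rw [this]
        positivity)]
      congr 1
      ring
    have hUr : 0 ≤ U ^ r := pow_nonneg hU0 r
    have e1 : (S.card : ℝ) * (U ^ r * M) ≤ N * (U ^ r * M) :=
      mul_le_mul_of_nonneg_right hSN (by positivity)
    have e2 : ((S.filter (fun j => j ∈ G)).card : ℝ) * U ^ r ≤ K₁ * (N * M) * U ^ r := by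
      refine mul_le_mul_of_nonneg_right ?_ hUr
      refine (hGf.trans hGc).trans ?_
      rw [hNe]
      exact mul_le_mul_of_nonneg_left (mul_le_mul_of_nonneg_left hM2 hN0'.le) hK₁.le
    calc (S.card : ℝ) * (U ^ r * M) + ((S.filter (fun j => j ∈ G)).card : ℝ) * U ^ r
        ≤ N * (U ^ r * M) + K₁ * (N * M) * U ^ r := add_le_add e1 e2
      _ = (1 + K₁) * (N * U ^ r * M) := by ring
      _ ≤ K * (N * U ^ r * M) := mul_le_mul_of_nonneg_right hKK₁ (by positivity)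
      _ = K * N * U ^ r * M := by ring

end Pool.Agent.Results.MP_0f260b_nt.PolynomialMoments
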