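import Pool.Agent.R345.HM1
import Pool.Agent.Results.MP_695920_nt.Sumsets
import Pool.Agent.Results.MP_16912e_nt.SumsetMoments

set_option autoImplicit false

/-!
# Moments of the `p`-parts of the class groups of the quadratic fields given by an ARBITRARY sumset

Let `H` be a finite abelian `p`-group of rank `r` and exponent dividing `ℓ = p ^ m`, written as a product of `r` cyclic
groups, and let `A`, `B` be arbitrary sets of integers in `[-N, N]`.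

(1) If `|A|, |B| ≥ N ^ (1 / ℓ₀ + ε)`, then for all but a proportion `N ^ (- ε / 4)` of the pairs `(a, b)`, ALL primes `p`,
and ALL such groups `H` with `ℓ ≥ ℓ₀`: the number of the surjective homomorphisms from the `p`-part of the class group of
`K = ℚ(√(a + b))` onto `H` is at most `(ℓ ^ 2 N ^ ε |d| ^ (1 / 2 - 1 / (2 ℓ))) ^ r`, `d` the discriminant.

(2) If `r < ℓ` and `|A|, |B| ≥ N ^ ((r + 1) / ℓ)`, then the `H`-moment over the pairs is at most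
`C N ^ (r (1 / 2 - 1 / (2 ℓ)) + ε)`.
-/

namespace Pool.Agent.Results.MP_0f260b_nt.SumsetMoments

open NumberField

/-- `#Sur(Cl(K)[p^∞], H)` for the group `H`, the product of the cyclic groups of orders `p ^ e i`. -/
noncomputable def numSur (K : Type) [Field K] [NumberField K] (p : ℕ) {r : ℕ} (e : Fin r → ℕ) : ℕ :=
  Nat.card {φ : CommGroup.primaryComponent (ClassGroup (𝓞 K)) p →* (∀ i : Fin r, Multiplicative (ZMod (p ^ e i))) //
    Function.Surjective φ}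

lemma numSur_le (K : Type) [Field K] [NumberField K] (p : ℕ) (hp : p.Prime) {r : ℕ} (e : Fin r → ℕ) (m : ℕ)
    (he : ∀ i, e i ≤ m) :
    (numSur K p e : ℝ) ≤ (Nat.card {x : ClassGroup (𝓞 K) // x ^ (p ^ m) = 1} : ℝ) ^ r := by
  have := Pool.Agent.R345.HM.card_sur_le (ClassGroup (𝓞 K)) p hp m r e he
  exact_mod_cast this

theorem result :
    (∀ (ℓ₀ : ℕ) (ε : ℝ), 1 ≤ ℓ₀ → 0 < ε → ∃ N₀ : ℕ, ∀ (N : ℕ) (A B : Finset ℤ), N₀ ≤ N →
      (∀ a ∈ A, |a| ≤ (N : ℤ)) → (∀ b ∈ B, |b| ≤ (N : ℤ)) →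
      (N : ℝ) ^ (1 / (ℓ₀ : ℝ) + ε) ≤ A.card → (N : ℝ) ^ (1 / (ℓ₀ : ℝ) + ε) ≤ B.card →
      ∃ G : Finset (ℤ × ℤ), (G.card : ℝ) ≤ (N : ℝ) ^ (-(ε / 4)) * (A.card * B.card) ∧
        ∀ a ∈ A, ∀ b ∈ B, (a, b) ∉ G → ∀ (p m r : ℕ) (e : Fin r → ℕ), p.Prime → ℓ₀ ≤ p ^ m → (∀ i, e i ≤ m) →
          ∀ (K : Type) [Field K] [NumberField K] (α : K), Module.finrank ℚ K = 2 →
            IntermediateField.adjoin ℚ {α} = ⊤ → α ^ 2 = ((a + b : ℤ) : K) →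
            (numSur K p e : ℝ) ≤
              (((p : ℝ) ^ m) ^ 2 * (N : ℝ) ^ ε * |(discr K : ℝ)| ^ (1 / 2 - 1 / (2 * (p : ℝ) ^ m))) ^ r) ∧
    (∀ (p m r : ℕ) (e : Fin r → ℕ) (ε : ℝ), p.Prime → (∀ i, e i ≤ m) → 1 ≤ r → r < p ^ m → 0 < ε →
      ∃ C : ℝ, 0 < C ∧ ∀ (N : ℕ) (A B : Finset ℤ), 2 ≤ N → (∀ a ∈ A, |a| ≤ (N : ℤ)) → (∀ b ∈ B, |b| ≤ (N : ℤ)) →
        (N : ℝ) ^ (((r : ℝ) + 1) / (p : ℝ) ^ m) ≤ A.card → (N : ℝ) ^ (((r : ℝ) + 1) / (p : ℝ) ^ m) ≤ B.card →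
        ∀ (S : Finset ℤ) (K : ℤ → Type) [∀ t, Field (K t)] [∀ t, NumberField (K t)] (α : ∀ t, K t),
          (∀ t ∈ S, Module.finrank ℚ (K t) = 2 ∧ IntermediateField.adjoin ℚ {α t} = ⊤ ∧ α t ^ 2 = (t : K t)) →
          ∑ z ∈ (A ×ˢ B).filter (fun z => z.1 + z.2 ∈ S), (numSur (K (z.1 + z.2)) p e : ℝ) ≤
            C * (A.card * B.card) * (N : ℝ) ^ ((r : ℝ) * (1 / 2 - 1 / (2 * (p : ℝ) ^ m)) + ε)) := by
  refine ⟨?_, ?_⟩
  · intro ℓ₀ ε h1 hε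
    obtain ⟨N₀, h⟩ := MP_695920_nt.Sumsets.result.2 ℓ₀ ε h1 hε
    refine ⟨N₀, fun N A B hN hA hB hcA hcB => ?_⟩
    obtain ⟨G, hG, hG'⟩ := h N A B hN hA hB hcA hcB
    refine ⟨G, hG, ?_⟩
    intro a ha b hb hab p m r e hp hm he K _ _ α hfin hα hsq
    have h2 := hG' a ha b hb hab (p ^ m) hm K α hfin hα hsq
    refine (numSur_le K p hp e m he).trans ?_
    refine pow_le_pow_left₀ (Nat.cast_nonneg _) ?_ r
    push_cast at h2
    exact h2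
  · intro p m r e ε hp he hr hrm hε
    obtain ⟨C, hC, h⟩ := MP_16912e_nt.SumsetMoments.result (p ^ m) r hr hrm ε hε
    refine ⟨C, hC, fun N A B hN hA hB hcA hcB S K _ _ α hS => ?_⟩
    push_cast at h
    refine le_trans (Finset.sum_le_sum fun z _ => ?_) (h N A B hN hA hB hcA hcB S K α hS)
    exact numSur_le _ p hp e m he

end Pool.Agent.Results.MP_0f260b_nt.SumsetMoments
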